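import Pool.Agent.Lib.MP_904b2a_gt.Final

/-!
# MP_904b2a_gt: realising infinitely divisible Chern classes on CW complexes

A full positive answer to Q1.
-/

namespace Pool.Agent.Results.MP_904b2a_gt.DivisibleChern

open Pool.Agent.Lib.MP_904b2a_gt Stmt

/-- Chern classes exist, that is, there are classes `c_i(V) ∈ H^{2i}(X;ℤ)` which satisfy the usual
axioms (`ChernClasses`). For all such classes, every CW complex `X` of dimension at most `d` (with
any number of cells) and all `c_i ∈ H^{2i}(X;ℤ)`, `1 ≤ i ≤ r`, whose reductions modulo every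
`m ≥ 1` vanish, there is a complex vector bundle `E` of rank `r` over `X` with `c_i(E) = c_i` for
`1 ≤ i ≤ r`. -/
theorem result :
    Nonempty ChernClasses ∧
    ∀ (𝒞 : ChernClasses) (d r : ℕ) (X : Type) [TopologicalSpace X] [T2Space X]
      [Topology.CWComplex (Set.univ : Set X)],
      (∀ n, d < n → IsEmpty (Topology.RelCWComplex.cell (Set.univ : Set X) n)) →
      ∀ c : ∀ i : ℕ, Cohomology (2 * i) X ℤ,
        (∀ i, 1 ≤ i → i ≤ r → ∀ m : ℕ, 1 ≤ m → ∀ φ, Represents φ (c i) →
          Cohomologous (fun σ => (φ σ : ZMod m)) (fun _ => 0)) →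
        ∃ E : CVB r X, E.Embeddable ∧ ∀ i, 1 ≤ i → i ≤ r → 𝒞.c E i = c i :=
  finalStatement

end Pool.Agent.Results.MP_904b2a_gt.DivisibleChern
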